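import Pool.Agent.H772R3.RightAlt

set_option autoImplicit false

/-!
Question 2. Every right alternative ring `A` embeds, by a ring homomorphism `δ`, in a right
alternative ring `D A` with `δ(A) ∩ N_alt(D A) = 0`. Hence a polynomial with values in the
alternative centre in every right alternative ring is an identity of all right alternative rings.
-/

namespace Pool.Agent.Results.MP_c44da7_al.NoAltCenterPolynomial

open Pool.Agent.H772R3.RightAlt

universe u

theorem result :
    ¬ ∃ f : Poly, Nontrivial.{u} f ∧ TakesValuesIn.{u} (fun A _ => altCenter A) f :=
  main _ fun _ _ _ hn => not_mem_altCenter hn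

end Pool.Agent.Results.MP_c44da7_al.NoAltCenterPolynomial
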