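import Pool.Agent.H772R3.RightAlt

set_option autoImplicit false

/-!
Question 1, parts (a) and (b). Every right alternative ring `A` embeds, by a ring homomorphism
`δ`, in a right alternative ring `D A` with `δ(A) ∩ N_r(D A) = 0` and `δ(A) ∩ N_l(D A) = 0`.
Hence a polynomial with values in `N_r` (or in `N_l`) in every right alternative ring is an
identity of all right alternative rings.
-/

namespace Pool.Agent.Results.MP_c44da7_al.NoNuclearPolynomial

open Pool.Agent.H772R3.RightAlt

universe u

theorem result :
    (¬ ∃ f : Poly, Nontrivial.{u} f ∧ TakesValuesIn.{u} (fun A _ => rightNucleus A) f) ∧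
    (¬ ∃ f : Poly, Nontrivial.{u} f ∧ TakesValuesIn.{u} (fun A _ => leftNucleus A) f) :=
  ⟨main _ fun _ _ _ hn => not_mem_rightNucleus hn, main _ fun _ _ _ hn => not_mem_leftNucleus hn⟩

end Pool.Agent.Results.MP_c44da7_al.NoNuclearPolynomial
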